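import Pool.Agent.LCSV.TailC
import Pool.Agent.LCSV.ELrep

/-!
# MP_40727b_pr: both tails of the longest common subsequence are of Gaussian order

For all alphabets with sufficiently many letters (`k ≥ k₀`): there are `c, C > 0` such that for all
`n ≥ 1` and all `0 ≤ t ≤ c √n` the probabilities of `L_n ≥ E L_n + t √n` and of `L_n ≤ E L_n - t √n`
are both at least `c exp(- C t²)`.
-/

set_option autoImplicit false

namespace Pool.Agent.Results.MP_40727b_pr.GaussianTails

open Finset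

/-- words of `n` letters over an alphabet with `k` letters -/
abbrev Word (k n : ℕ) : Type := Fin n → Fin k

/-- `X` and `Y` have a common subsequence of length `m` -/
def HasCommon {k n : ℕ} (X Y : Word k n) (m : ℕ) : Prop :=
  ∃ i j : Fin m → Fin n, StrictMono i ∧ StrictMono j ∧ ∀ r, X (i r) = Y (j r)

/-- the length of a longest common subsequence of `X` and `Y` -/
noncomputable def L {k n : ℕ} (X Y : Word k n) : ℕ := sSup {m : ℕ | HasCommon X Y m}

/-- the expectation of `F(X, Y)` for two independent uniform words `X`, `Y` of `n` letters -/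
noncomputable def expect (k n : ℕ) (F : Word k n → Word k n → ℝ) : ℝ :=
  (∑ X : Word k n, ∑ Y : Word k n, F X Y) / ((k : ℝ) ^ n * (k : ℝ) ^ n)

/-- the expectation of `L_n` -/
noncomputable def mean (k n : ℕ) : ℝ := expect k n (fun X Y => (L X Y : ℝ))

open Classical in
/-- the probability of the event `A(X, Y)` for two independent uniform words of `n` letters -/
noncomputable def prob (k n : ℕ) (A : Word k n → Word k n → Prop) : ℝ :=
  expect k n (fun X Y => if A X Y then 1 else 0)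

theorem L_eq {k n : ℕ} (X Y : Word k n) : LCSV.lcs (List.ofFn X) (List.ofFn Y) = L X Y :=
  LCSV.lcs_ofFn X Y

theorem expect_eq (k n : ℕ) (F : List (Fin k) → List (Fin k) → ℝ) :
    LCSV.EL (LCSV.un k) n (fun X => LCSV.EL (LCSV.un k) n (fun Y => F X Y)) =
      expect k n (fun X Y => F (List.ofFn X) (List.ofFn Y)) := by
  rw [LCSV.EL_un]
  unfold expect
  rw [show (fun X Y => F (List.ofFn X) (List.ofFn Y)) = (fun X : Word k n => fun Y : Word k n =>
    F (List.ofFn X) (List.ofFn Y)) from rfl]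
  simp only [LCSV.EL_un]
  rw [← Finset.mul_sum, one_div, inv_pow, div_eq_inv_mul, mul_inv, mul_assoc]

theorem mean_eq (k n : ℕ) : LCSV.EL (LCSV.un k) n (fun X' => LCSV.EL (LCSV.un k) n
    (fun Y' => (LCSV.lcs X' Y' : ℝ))) = mean k n := by
  rw [expect_eq k n (fun X' Y' => (LCSV.lcs X' Y' : ℝ))]
  simp only [L_eq]
  rfl

theorem result : ∃ k0 : ℕ, ∀ k ≥ k0, ∃ c C : ℝ, 0 < c ∧ 0 < C ∧ ∀ n : ℕ, 1 ≤ n → ∀ t : ℝ,
    0 ≤ t → t ≤ c * √(n : ℝ) →
      c * Real.exp (-(C * t ^ 2)) ≤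
        prob k n (fun X Y => mean k n + t * √(n : ℝ) ≤ (L X Y : ℝ)) ∧
      c * Real.exp (-(C * t ^ 2)) ≤
        prob k n (fun X Y => (L X Y : ℝ) ≤ mean k n - t * √(n : ℝ)) := by
  obtain ⟨k0, h0⟩ := LCSV.tailC
  refine ⟨k0, fun k hk => ?_⟩
  obtain ⟨c, C, hc, hC, h⟩ := h0 k hk
  refine ⟨c, C, hc, hC, fun n hn t ht htc => ?_⟩
  have h1 := h n hn t ht htc
  rw [mean_eq, expect_eq k n (fun X Y => LCSV.ind (t * √(n : ℝ) ≤ (LCSV.lcs X Y : ℝ) - mean k n)),
    expect_eq k n (fun X Y => LCSV.ind (t * √(n : ℝ) ≤ mean k n - (LCSV.lcs X Y : ℝ)))] at h1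
  simp only [L_eq] at h1
  have e1 : (fun X Y : Word k n => LCSV.ind (t * √(n : ℝ) ≤ (L X Y : ℝ) - mean k n)) =
      (fun X Y : Word k n => LCSV.ind (mean k n + t * √(n : ℝ) ≤ (L X Y : ℝ))) := by
    funext X Y
    have : (t * √(n : ℝ) ≤ (L X Y : ℝ) - mean k n) = (mean k n + t * √(n : ℝ) ≤ (L X Y : ℝ)) :=
      propext ⟨fun h => by linarith, fun h => by linarith⟩
    rw [this]
  have e2 : (fun X Y : Word k n => LCSV.ind (t * √(n : ℝ) ≤ mean k n - (L X Y : ℝ))) =
      (fun X Y : Word k n => LCSV.ind ((L X Y : ℝ) ≤ mean k n - t * √(n : ℝ))) := by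
    funext X Y
    have : (t * √(n : ℝ) ≤ mean k n - (L X Y : ℝ)) = ((L X Y : ℝ) ≤ mean k n - t * √(n : ℝ)) :=
      propext ⟨fun h => by linarith, fun h => by linarith⟩
    rw [this]
  rw [e1, e2] at h1
  exact h1

end Pool.Agent.Results.MP_40727b_pr.GaussianTails
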